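import Pool.Agent.H21.BS.Targets

/-!
# Rows ESM and DQF of the Bessel inequality
-/

set_option autoImplicit false

open Finset Pool.Agent.H6.N4D Pool.Agent.H21.BS

namespace Pool.Agent.H91.BS

theorem four_nd_le (θ : ℝ) : 4 * nd θ ≤ ‖ee θ - 1‖ := by
  have h0 : ‖ee θ - 1‖ = 2 * |Real.sin (Real.pi * θ)| := by
    unfold ee
    rw [mul_comm, Complex.norm_exp_I_mul_ofReal_sub_one, Real.norm_eq_abs, abs_mul]
    rw [abs_of_pos (by norm_num : (0 : ℝ) < 2)]
    congr 3
    ring
  rw [h0]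
  have h1 : |Real.sin (Real.pi * θ)| = |Real.sin (Real.pi * (θ - round θ))| := by
    have h := Real.sin_sub_int_mul_pi (Real.pi * θ) (round θ)
    have h2 : Real.pi * (θ - round θ) = Real.pi * θ - (round θ) * Real.pi := by ring
    rw [h2, h, abs_mul]
    simp
  rw [h1]
  have h2 := abs_sub_round θ
  unfold nd
  set s := θ - round θ
  have hpi := Real.pi_pos
  have h3 := Real.mul_le_sin (x := Real.pi * |s|) (by positivity) (by nlinarith)
  have h4 : 2 / Real.pi * (Real.pi * |s|) = 2 * |s| := by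
    field_simp
  rw [h4] at h3
  have h5 : |Real.sin (Real.pi * |s|)| = |Real.sin (Real.pi * s)| := by
    rcases abs_cases s with h | h
    · rw [h.1]
    · rw [h.1, mul_neg, Real.sin_neg, abs_neg]
  have h6 := le_abs_self (Real.sin (Real.pi * |s|))
  rw [h5] at h6
  linarith

theorem geo_tel (δ : ℝ) (a m : ℕ) :
    (∑ x ∈ range m, ee (δ * ((a + x : ℕ) : ℝ))) * (ee δ - 1) =
      ee (δ * ((a + m : ℕ) : ℝ)) - ee (δ * (a : ℝ)) := by
  induction m with
  | zero => simp
  | succ m ih =>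
    rw [sum_range_succ, add_mul, ih]
    have h : ee (δ * ((a + (m + 1) : ℕ) : ℝ)) = ee (δ * ((a + m : ℕ) : ℝ)) * ee δ := by
      rw [← ee_add]
      congr 1
      push_cast
      ring
    rw [h]
    ring

theorem geo_bound (δ : ℝ) (hδ : 0 < nd δ) (a m : ℕ) :
    ‖∑ x ∈ range m, ee (δ * ((a + x : ℕ) : ℝ))‖ ≤ 1 / (2 * nd δ) := by
  have h1 := four_nd_le δ
  have h2 := geo_tel δ a m
  have h3 : ‖∑ x ∈ range m, ee (δ * ((a + x : ℕ) : ℝ))‖ * ‖ee δ - 1‖ ≤ 2 := by
    rw [← norm_mul, h2]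
    refine (norm_sub_le _ _).trans ?_
    rw [norm_ee, norm_ee]
    norm_num
  rw [le_div_iff₀ (by positivity)]
  have h4 := (mul_le_mul_of_nonneg_left h1
    (norm_nonneg (∑ x ∈ range m, ee (δ * ((a + x : ℕ) : ℝ))))).trans h3
  linarith

theorem abel (A G : ℕ → ℂ) (M : ℕ) (hA : A 0 = 0) :
    ∑ x ∈ range M, (A (x + 1) - A x) * G x =
      A M * G M - ∑ x ∈ range M, A (x + 1) * (G (x + 1) - G x) := by
  induction M with
  | zero => simp [hA]
  | succ M ih =>
    rw [sum_range_succ, sum_range_succ, ih]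
    ring

theorem pf_ESM : T_ESM := by
  intro δ v a M G hδ hG
  obtain ⟨hG1, hG2⟩ := hG
  set A : ℕ → ℂ := fun m => ∑ x ∈ range m, ee (δ * ((a + x : ℕ) : ℝ)) with hAd
  have hA0 : A 0 = 0 := by simp [hAd]
  have hAb : ∀ m, ‖A m‖ ≤ 1 / (2 * nd δ) := fun m => geo_bound δ hδ a m
  have h1 : ∑ x ∈ range M, ee (δ * ((a + x : ℕ) : ℝ)) * G (a + x) =
      ∑ x ∈ range M, (A (x + 1) - A x) * (fun x => G (a + x)) x := by
    apply sum_congr rfl
    intro x _
    congr 1
    simp only [hAd]
    rw [sum_range_succ]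
    ring
  rw [h1, abel A _ M hA0]
  have hpos : 0 < 1 / (2 * nd δ) := by positivity
  have h2 : ‖A M * (fun x => G (a + x)) M‖ ≤ 1 / (2 * nd δ) * 1 := by
    rw [norm_mul]
    exact mul_le_mul (hAb M) (hG1 _) (norm_nonneg _) hpos.le
  have h3 : ‖∑ x ∈ range M, A (x + 1) * ((fun x => G (a + x)) (x + 1) - (fun x => G (a + x)) x)‖ ≤
      1 / (2 * nd δ) * v := by
    refine (norm_sum_le _ _).trans ?_
    calc ∑ x ∈ range M, ‖A (x + 1) * ((fun x => G (a + x)) (x + 1) - (fun x => G (a + x)) x)‖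
        ≤ ∑ x ∈ range M, 1 / (2 * nd δ) * ‖G (a + x + 1) - G (a + x)‖ := by
          apply sum_le_sum
          intro x _
          rw [norm_mul]
          exact mul_le_mul_of_nonneg_right (hAb _) (norm_nonneg _)
      _ = 1 / (2 * nd δ) * ∑ x ∈ range M, ‖G (a + x + 1) - G (a + x)‖ := by rw [mul_sum]
      _ ≤ _ := mul_le_mul_of_nonneg_left hG2 hpos.le
  refine (norm_sub_le _ _).trans ?_
  have h4 : (1 + v) / (2 * nd δ) = 1 / (2 * nd δ) * 1 + 1 / (2 * nd δ) * v := by ring
  rw [h4]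
  exact add_le_add h2 h3

theorem pf_DQF : T_DQF := by
  intro q n hq
  have hq0 : (q : ℝ) ≠ 0 := by positivity
  set z : ℂ := ee ((n : ℝ) / q) with hz
  have hpow : ∀ b : ℕ, ee ((b : ℝ) / q * n) = z ^ b := by
    intro b
    induction b with
    | zero => simpa using ee_int 0
    | succ b ih =>
      rw [pow_succ, ← ih, hz, ← ee_add]
      congr 1
      push_cast
      ring
  have hzq : z ^ q = 1 := by
    rw [← hpow, div_self hq0, one_mul]
    exact_mod_cast ee_int (n : ℤ)
  have hsum : ∑ b ∈ range q, z ^ b = if q ∣ n then (q : ℂ) else 0 := by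
    split_ifs with h
    · obtain ⟨k, rfl⟩ := h
      have h1 : z = 1 := by
        rw [hz]
        have : ((q * k : ℕ) : ℝ) / q = ((k : ℤ) : ℝ) := by
          push_cast
          field_simp
        rw [this]
        exact ee_int k
      rw [h1]
      simp
    · have h1 : z ≠ 1 := by
        intro h1
        apply h
        rw [hz] at h1
        unfold ee at h1
        rw [Complex.exp_eq_one_iff] at h1
        obtain ⟨k, hk⟩ := h1
        have h2 : ((n : ℝ) / q) = k := by
          have h3 : ((2 * Real.pi * ((n : ℝ) / q) : ℝ) : ℂ) * Complex.I =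
              ((2 * Real.pi * (k : ℝ) : ℝ) : ℂ) * Complex.I := by
            rw [hk]
            push_cast
            ring
          have h4 := mul_right_cancel₀ Complex.I_ne_zero h3
          have h5 : 2 * Real.pi * ((n : ℝ) / q) = 2 * Real.pi * (k : ℝ) := by exact_mod_cast h4
          have h6 : (2 * Real.pi) ≠ 0 := by positivity
          exact mul_left_cancel₀ h6 h5
        rw [div_eq_iff hq0] at h2
        have h3 : (n : ℤ) = k * q := by exact_mod_cast h2
        have h4 : (q : ℤ) ∣ n := ⟨k, by rw [h3]; ring⟩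
        exact_mod_cast h4
      have h2 : (∑ b ∈ range q, z ^ b) * (z - 1) = 0 := by
        rw [geom_sum_mul, hzq, sub_self]
      rcases mul_eq_zero.mp h2 with h3 | h3
      · exact h3
      · exact absurd (sub_eq_zero.mp h3) h1
  unfold DD
  rw [← hsum]
  simp only [hpow]
  rw [range_eq_Ico, Finset.sum_eq_sum_Ico_succ_bot (by omega)]
  simp

end Pool.Agent.H91.BS
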